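import Pool.Agent.H25.TRI.Targets

/-!
Row C_DYA of the board reg_modules: the heat extension is bounded by means over dyadic balls.
-/

set_option autoImplicit false

namespace Pool.Agent.H19.TRI

open MeasureTheory Metric Set Filter Topology Pool.Agent.H87.SN Pool.Agent.H25.TRI
open scoped ContDiff RealInnerProductSpace ENNReal

/-- The Gaussian constant. -/
noncomputable def c0 (n : ℕ) : ℝ := (4 * Real.pi) ^ (-(n : ℝ) / 2)

/-- The weights. -/
noncomputable def ej (j : ℕ) : ℝ := Real.exp (1 / 16) * Real.exp (-(4 ^ j / 16))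

theorem c0_nonneg (n : ℕ) : 0 ≤ c0 n := by
  unfold c0
  positivity

theorem ej_nonneg (j : ℕ) : 0 ≤ ej j := by
  unfold ej
  positivity

theorem gam_le {n : ℕ} (w : E n) : ∃ j : ℕ, ‖w‖ < 2 ^ j ∧ gam w ≤ c0 n * ej j := by
  have hex : ∃ j : ℕ, ‖w‖ < 2 ^ j := pow_unbounded_of_one_lt _ (by norm_num)
  classical
  obtain ⟨j, hj, hmin⟩ : ∃ j : ℕ, ‖w‖ < 2 ^ j ∧ ∀ k < j, ¬ ‖w‖ < 2 ^ k :=
    ⟨Nat.find hex, Nat.find_spec hex, fun k hk => Nat.find_min hex hk⟩
  refine ⟨j, hj, ?_⟩
  show c0 n * Real.exp (-(‖w‖ ^ 2) / 4) ≤ _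
  refine mul_le_mul_of_nonneg_left ?_ (c0_nonneg n)
  unfold ej
  rw [← Real.exp_add]
  apply Real.exp_le_exp.mpr
  cases j with
  | zero =>
    have h0 : 0 ≤ ‖w‖ ^ 2 := by positivity
    rw [pow_zero]
    linarith
  | succ k =>
    have h1 : (2 : ℝ) ^ k ≤ ‖w‖ := not_lt.mp (hmin k (Nat.lt_succ_self k))
    have h2 : ((2 : ℝ) ^ k) ^ 2 ≤ ‖w‖ ^ 2 := by gcongr
    have h3 : ((2 : ℝ) ^ k) ^ 2 = 4 ^ k := by
      rw [← pow_mul, mul_comm, pow_mul]
      norm_num
    rw [h3] at h2
    have h4 : (4 : ℝ) ^ (k + 1) = 4 ^ k * 4 := pow_succ _ _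
    rw [h4]
    linarith

theorem summ (n : ℕ) : Summable fun j : ℕ => c0 n * ej j * 2 ^ (j * n) := by
  have hb : ∀ j : ℕ, c0 n * ej j * 2 ^ (j * n) ≤
      (c0 n * Real.exp (1 / 16) * ((n + 1).factorial * 16 ^ (n + 1))) * (1 / 4) ^ j := by
    intro j
    have hx : (0 : ℝ) < 4 ^ j / 16 := by positivity
    have h1 := Real.pow_div_factorial_le_exp (4 ^ j / 16 : ℝ) hx.le (n + 1)
    have hf : (0 : ℝ) < (n + 1).factorial := by exact_mod_cast Nat.factorial_pos _
    have h2 : Real.exp (-(4 ^ j / 16)) ≤ (n + 1).factorial / (4 ^ j / 16) ^ (n + 1) := by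
      rw [Real.exp_neg, inv_eq_one_div, div_le_div_iff₀ (Real.exp_pos _) (by positivity), one_mul]
      rw [div_le_iff₀ hf] at h1
      linarith
    have h3 : ((n + 1).factorial / (4 ^ j / 16) ^ (n + 1) : ℝ) * 2 ^ (j * n) ≤
        ((n + 1).factorial * 16 ^ (n + 1)) * (1 / 4) ^ j := by
      rw [div_pow, div_div_eq_mul_div, div_mul_eq_mul_div, div_le_iff₀ (by positivity)]
      have h4 : (2 : ℝ) ^ (j * n) ≤ (1 / 4) ^ j * (4 ^ j) ^ (n + 1) := by
        rw [pow_succ, ← mul_assoc, mul_comm ((1 / 4 : ℝ) ^ j), mul_assoc, ← mul_pow]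
        norm_num
        rw [← pow_mul]
        gcongr
        norm_num
      calc ((n + 1).factorial : ℝ) * 16 ^ (n + 1) * 2 ^ (j * n)
          ≤ ((n + 1).factorial : ℝ) * 16 ^ (n + 1) * ((1 / 4) ^ j * (4 ^ j) ^ (n + 1)) := by
            gcongr
        _ = _ := by ring
    have h5 : 0 ≤ c0 n * Real.exp (1 / 16) := mul_nonneg (c0_nonneg n) (Real.exp_pos _).le
    calc c0 n * ej j * 2 ^ (j * n)
        = (c0 n * Real.exp (1 / 16)) * (Real.exp (-(4 ^ j / 16)) * 2 ^ (j * n)) := by
          unfold ej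
          ring
      _ ≤ (c0 n * Real.exp (1 / 16)) *
          ((n + 1).factorial / (4 ^ j / 16) ^ (n + 1) * 2 ^ (j * n)) := by gcongr
      _ ≤ (c0 n * Real.exp (1 / 16)) * (((n + 1).factorial * 16 ^ (n + 1)) * (1 / 4) ^ j) := by
          gcongr
      _ = _ := by ring
  refine Summable.of_nonneg_of_le (fun j => ?_) hb ?_
  · have := c0_nonneg n
    have := ej_nonneg j
    positivity
  · exact (summable_geometric_of_lt_one (by norm_num) (by norm_num)).mul_left _

theorem scale {n : ℕ} (F : E n → ℝ≥0∞) (hF : Measurable F) {s : ℝ} (hs : 0 < s) (y : E n) (R : ℝ) :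
    ∫⁻ z, (ball (0 : E n) R).indicator (fun z => F (y - Real.sqrt s • z)) z =
      ENNReal.ofReal ((Real.sqrt s ^ n)⁻¹) * ∫⁻ z in ball y (R * Real.sqrt s), F z := by
  have hq : 0 < Real.sqrt s := Real.sqrt_pos.mpr hs
  obtain ⟨H, hH⟩ : ∃ H : E n → ℝ≥0∞, H = (ball y (R * Real.sqrt s)).indicator F := ⟨_, rfl⟩
  have hHm : Measurable H := by
    rw [hH]
    exact hF.indicator measurableSet_ball
  have h1 : ∀ z : E n, (ball (0 : E n) R).indicator (fun z => F (y - Real.sqrt s • z)) z =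
      (fun w => H (y - w)) (Real.sqrt s • z) := by
    intro z
    rw [hH]
    have hiff : z ∈ ball (0 : E n) R ↔ y - Real.sqrt s • z ∈ ball y (R * Real.sqrt s) := by
      rw [mem_ball_zero_iff, mem_ball, dist_eq_norm, sub_sub_cancel_left, norm_neg, norm_smul,
        Real.norm_of_nonneg hq.le, mul_comm R]
      exact (mul_lt_mul_iff_right₀ hq).symm
    by_cases hz : z ∈ ball (0 : E n) R
    · rw [indicator_of_mem hz]
      show _ = (ball y (R * Real.sqrt s)).indicator F (y - Real.sqrt s • z)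
      rw [indicator_of_mem (hiff.mp hz)]
    · rw [indicator_of_notMem hz]
      show _ = (ball y (R * Real.sqrt s)).indicator F (y - Real.sqrt s • z)
      rw [indicator_of_notMem (fun h => hz (hiff.mpr h))]
  rw [lintegral_congr h1]
  have h2 := Measure.map_addHaar_smul (volume : Measure (E n)) hq.ne'
  have h3 : ∫⁻ z : E n, (fun w => H (y - w)) (Real.sqrt s • z) =
      ∫⁻ w, H (y - w) ∂(Measure.map (Real.sqrt s • ·) (volume : Measure (E n))) := by
    have hm : Measurable fun w : E n => H (y - w) := hHm.comp (by fun_prop)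
    have hm2 : Measurable fun z : E n => Real.sqrt s • z := by fun_prop
    exact (lintegral_map hm hm2).symm
  rw [h3, h2, lintegral_smul_measure, lintegral_sub_left_eq_self (fun w => H w) y, hH,
    lintegral_indicator measurableSet_ball, smul_eq_mul]
  congr 2
  rw [finrank_euclideanSpace_fin, abs_of_pos (by positivity)]

theorem pf_DYA (hGAU : T_GAU) : T_DYA := by
  intro n
  obtain ⟨v, hv⟩ : ∃ v, v = volume (ball (0 : E n) 1) := ⟨_, rfl⟩
  have hv0 : v ≠ 0 := by
    rw [hv]
    exact (measure_ball_pos volume _ (by norm_num)).ne'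
  have hvt : v ≠ ⊤ := by
    rw [hv]
    exact measure_ball_lt_top.ne
  refine ⟨fun j => ENNReal.ofReal (c0 n * ej j * 2 ^ (j * n)) * v, ?_, ?_⟩
  · rw [ENNReal.tsum_mul_right]
    exact ENNReal.mul_ne_top (summ n).tsum_ofReal_ne_top hvt
  · intro f hf s hs y
    have hq : 0 < Real.sqrt s := Real.sqrt_pos.mpr hs
    obtain ⟨F, hF⟩ : ∃ F : E n → ℝ≥0∞, F = fun z => ‖f z‖ₑ := ⟨_, rfl⟩
    have hFm : Measurable F := by
      rw [hF]
      exact hf.enorm.measurable
    have hG : Measurable fun z : E n => F (y - Real.sqrt s • z) := hFm.comp (by fun_prop)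
    have hGi : ∀ j : ℕ, Measurable fun z : E n =>
        (ball (0 : E n) (2 ^ j)).indicator (fun z => F (y - Real.sqrt s • z)) z :=
      fun j => hG.indicator measurableSet_ball
    have hpt : ∀ z : E n, ‖gam z * f (y - Real.sqrt s • z)‖ₑ ≤
        ∑' j : ℕ, ENNReal.ofReal (c0 n * ej j) *
          (ball (0 : E n) (2 ^ j)).indicator (fun z => F (y - Real.sqrt s • z)) z := by
      intro z
      obtain ⟨j, hj1, hj2⟩ := gam_le z
      refine le_trans ?_ (ENNReal.le_tsum j)
      rw [indicator_of_mem (mem_ball_zero_iff.mpr hj1), enorm_mul, hF,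
        Real.enorm_eq_ofReal ((hGAU n).1 z).le]
      gcongr
    calc ‖U f s y‖ₑ ≤ ∫⁻ z : E n, ‖gam z * f (y - Real.sqrt s • z)‖ₑ :=
          enorm_integral_le_lintegral_enorm _
      _ ≤ ∫⁻ z : E n, ∑' j : ℕ, ENNReal.ofReal (c0 n * ej j) *
          (ball (0 : E n) (2 ^ j)).indicator (fun z => F (y - Real.sqrt s • z)) z :=
          lintegral_mono hpt
      _ = ∑' j : ℕ, ∫⁻ z : E n, ENNReal.ofReal (c0 n * ej j) *
          (ball (0 : E n) (2 ^ j)).indicator (fun z => F (y - Real.sqrt s • z)) z := by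
          exact lintegral_tsum fun j => ((hGi j).const_mul _).aemeasurable
      _ ≤ _ := by
          refine ENNReal.tsum_le_tsum fun j => ?_
          rw [lintegral_const_mul _ (hGi j), scale F hFm hs y (2 ^ j)]
          obtain ⟨I, hI⟩ : ∃ I, I = ∫⁻ z in ball y (2 ^ j * Real.sqrt s), F z := ⟨_, rfl⟩
          have hI' : ∫⁻ z in ball y (2 ^ j * Real.sqrt s), ‖f z‖ₑ = I := by rw [hI, hF]
          rw [← hI, hI']
          have hvol : volume (ball y (2 ^ j * Real.sqrt s)) =
              ENNReal.ofReal ((2 ^ j * Real.sqrt s) ^ n) * v := by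
            rw [Measure.addHaar_ball_of_pos volume y (by positivity), finrank_euclideanSpace_fin, hv]
          rw [hvol]
          have hpos : (0 : ℝ) < (2 ^ j * Real.sqrt s) ^ n := by positivity
          have ha0 : ENNReal.ofReal ((2 ^ j * Real.sqrt s) ^ n) ≠ 0 := by
            rw [Ne, ENNReal.ofReal_eq_zero, not_le]
            exact hpos
          have h9 : v * (ENNReal.ofReal ((2 ^ j * Real.sqrt s) ^ n) * v)⁻¹ =
              ENNReal.ofReal (((2 ^ j * Real.sqrt s) ^ n)⁻¹) := by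
            rw [ENNReal.mul_inv (Or.inl ha0) (Or.inl ENNReal.ofReal_ne_top), mul_comm,
              mul_assoc, ENNReal.inv_mul_cancel hv0 hvt, mul_one, ENNReal.ofReal_inv_of_pos hpos]
          refine le_of_eq ?_
          calc ENNReal.ofReal (c0 n * ej j) * (ENNReal.ofReal ((Real.sqrt s ^ n)⁻¹) * I)
              = ENNReal.ofReal (c0 n * ej j * (Real.sqrt s ^ n)⁻¹) * I := by
                rw [← mul_assoc, ← ENNReal.ofReal_mul (mul_nonneg (c0_nonneg n) (ej_nonneg j))]
            _ = ENNReal.ofReal (c0 n * ej j * 2 ^ (j * n) * ((2 ^ j * Real.sqrt s) ^ n)⁻¹) * I := by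
                congr 2
                rw [mul_pow, ← pow_mul]
                field_simp
            _ = ENNReal.ofReal (c0 n * ej j * 2 ^ (j * n)) *
                ENNReal.ofReal (((2 ^ j * Real.sqrt s) ^ n)⁻¹) * I := by
                rw [← ENNReal.ofReal_mul (mul_nonneg (mul_nonneg (c0_nonneg n) (ej_nonneg j))
                  (by positivity))]
            _ = ENNReal.ofReal (c0 n * ej j * 2 ^ (j * n)) *
                (v * (ENNReal.ofReal ((2 ^ j * Real.sqrt s) ^ n) * v)⁻¹) * I := by rw [h9]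
            _ = _ := by
                rw [div_eq_mul_inv]
                ring

end Pool.Agent.H19.TRI
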